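import Mathlib

/-!
# Rational positive semidefinite completion on the 5-cycle
-/

open Finset Filter Topology

namespace Pool.Agent.Results.MP_dcc435_co.RationalCompletion

/-- `X` is a psd completion of `x`; `x i` is the entry of the edge `{i, i + 1}` of the 5-cycle -/
def IsCompletion (x : Fin 5 → ℝ) (X : Matrix (Fin 5) (Fin 5) ℝ) : Prop :=
  X.PosSemidef ∧ (∀ i, X i i = 1) ∧ ∀ i, X i (i + 1) = x i

/-- determinant of a unit `3 × 3` matrix -/
def tri (u v w : ℝ) : ℝ := 1 + 2 * u * v * w - u ^ 2 - v ^ 2 - w ^ 2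

/-! ### Rational points in intersections of intervals -/

lemma interval_rat (m1 m2 V W : ℚ) (q : ℝ) (h1 : (q - m1) ^ 2 ≤ V) (h2 : (q - m2) ^ 2 ≤ W) :
    ∃ r : ℚ, ((r : ℝ) - m1) ^ 2 ≤ V ∧ ((r : ℝ) - m2) ^ 2 ≤ W := by
  have hV : (0 : ℝ) ≤ V := (sq_nonneg _).trans h1
  have hW : (0 : ℝ) ≤ W := (sq_nonneg _).trans h2
  obtain ⟨v, hv0, hv⟩ : ∃ v : ℝ, 0 ≤ v ∧ v ^ 2 = V := ⟨√V, Real.sqrt_nonneg _, Real.sq_sqrt hV⟩
  obtain ⟨w, hw0, hw⟩ : ∃ w : ℝ, 0 ≤ w ∧ w ^ 2 = W := ⟨√W, Real.sqrt_nonneg _, Real.sq_sqrt hW⟩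
  rw [← hv] at h1 ⊢
  rw [← hw] at h2 ⊢
  have a1 := abs_le_of_sq_le_sq' h1 hv0
  have a2 := abs_le_of_sq_le_sq' h2 hw0
  by_cases hlt : max ((m1 : ℝ) - v) (m2 - w) < min ((m1 : ℝ) + v) (m2 + w)
  · obtain ⟨r, hr1, hr2⟩ := exists_rat_btwn hlt
    rw [max_lt_iff] at hr1
    rw [lt_min_iff] at hr2
    refine ⟨r, ?_, ?_⟩
    · apply sq_le_sq' <;> linarith
    · apply sq_le_sq' <;> linarith
  · -- the intersection is the point `q`
    push Not at hlt
    have hq : (∃ r : ℚ, (r : ℝ) = q) := by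
      have e1 : min ((m1 : ℝ) + v) (m2 + w) = q := by
        apply le_antisymm
        · refine hlt.trans (max_le ?_ ?_) <;> linarith
        · apply le_min <;> linarith
      have e2 : max ((m1 : ℝ) - v) (m2 - w) = q := by
        apply le_antisymm
        · apply max_le <;> linarith
        · rw [← e1]; exact hlt
      -- sums of square roots
      have key : ∀ s : ℚ, v + w = s → ∃ v' : ℚ, (v' : ℝ) = v := by
        intro s hs
        by_cases hs0 : s = 0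
        · refine ⟨0, ?_⟩
          rw [hs0] at hs
          push_cast at hs ⊢
          linarith
        · refine ⟨(s + (V - W) / s) / 2, ?_⟩
          have hs0' : (s : ℝ) ≠ 0 := by exact_mod_cast hs0
          push_cast
          rw [← hv, ← hw]
          have : (v ^ 2 - w ^ 2) / (s : ℝ) = v - w := by
            rw [div_eq_iff hs0', ← hs]
            ring
          rw [this, ← hs]
          ring
      rcases min_choice ((m1 : ℝ) + v) (m2 + w) with h | h <;>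
        rcases max_choice ((m1 : ℝ) - v) (m2 - w) with h' | h' <;> rw [h] at e1 <;> rw [h'] at e2
      · refine ⟨m1, ?_⟩
        linarith
      · obtain ⟨v', hv'⟩ := key (m2 - m1) (by push_cast; linarith)
        refine ⟨m1 + v', ?_⟩
        push_cast
        rw [hv']
        exact e1
      · obtain ⟨v', hv'⟩ := key (m1 - m2) (by push_cast; linarith)
        refine ⟨m1 - v', ?_⟩
        push_cast
        rw [hv']
        exact e2
      · refine ⟨m2, ?_⟩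
        linarith
    obtain ⟨r, hr⟩ := hq
    exact ⟨r, by rw [hr]; exact h1, by rw [hr]; exact h2⟩

/-! ### Irrational square roots -/

lemma irr_zero {u : ℝ} (hu : Irrational u) {α β : ℚ} (h : (α : ℝ) + β * u = 0) :
    α = 0 ∧ β = 0 := by
  have hβ : β = 0 := by
    by_contra hne
    apply hu
    refine ⟨-α / β, ?_⟩
    have : (β : ℝ) ≠ 0 := by exact_mod_cast hne
    push_cast
    rw [div_eq_iff this]
    linarith
  refine ⟨?_, hβ⟩
  rw [hβ] at h
  simpa using h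

lemma irr_pair {u v : ℝ} (hu : Irrational u) (hv : Irrational v) {A B : ℚ} (hA : u ^ 2 = A)
    (hB : v ^ 2 = B) {K0 K1 K2 K3 : ℚ} (h : (K0 : ℝ) + K1 * u + K2 * v + K3 * (u * v) = 0) :
    (K0 : ℝ) - K1 * u - K2 * v + K3 * (u * v) = 0 := by
  have hA0 : A ≠ 0 := by
    rintro rfl
    push_cast at hA
    have : u = 0 := pow_eq_zero_iff (two_ne_zero) |>.mp hA
    rw [this] at hu
    exact hu ⟨0, by simp⟩
  by_cases hw : Irrational (u * v)
  · have hsq : ((K0 ^ 2 + K3 ^ 2 * (A * B) - K1 ^ 2 * A - K2 ^ 2 * B : ℚ) : ℝ) +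
        ((2 * (K0 * K3 - K1 * K2) : ℚ) : ℝ) * (u * v) = 0 := by
      push_cast
      rw [← hA, ← hB]
      have : ((K0 : ℝ) + K3 * (u * v)) ^ 2 = (K1 * u + K2 * v) ^ 2 := by
        have : (K0 : ℝ) + K3 * (u * v) = -(K1 * u + K2 * v) := by linarith
        rw [this]; ring
      linarith [this]
    obtain ⟨e1, e2⟩ := irr_zero hw hsq
    have e2' : K0 * K3 = K1 * K2 := by linarith
    have nsq : ∀ {t : ℝ} {T : ℚ}, Irrational t → t ^ 2 = T → ∀ x y : ℚ, x ^ 2 * T = y ^ 2 →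
        x = 0 := by
      intro t T ht hT x y hxy
      by_contra hx
      have hx' : (x : ℝ) ≠ 0 := by exact_mod_cast hx
      have h1 : ((x : ℝ) * t) ^ 2 = (y : ℝ) ^ 2 := by
        rw [mul_pow, hT]
        exact_mod_cast hxy
      rcases sq_eq_sq_iff_eq_or_eq_neg.mp h1 with h2 | h2
      · exact ht ⟨y / x, by push_cast; rw [div_eq_iff hx']; linarith⟩
      · exact ht ⟨-y / x, by push_cast; rw [div_eq_iff hx']; linarith⟩
    have hK3 : K3 = 0 := by
      by_contra hK3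
      have : (K1 ^ 2 - K3 ^ 2 * B) * (K2 ^ 2 - K3 ^ 2 * A) = 0 := by
        have h3 : K1 ^ 2 * K2 ^ 2 = K0 ^ 2 * K3 ^ 2 := by
          calc K1 ^ 2 * K2 ^ 2 = (K1 * K2) ^ 2 := by ring
            _ = (K0 * K3) ^ 2 := by rw [e2']
            _ = K0 ^ 2 * K3 ^ 2 := by ring
        linear_combination h3 + K3 ^ 2 * e1
      rcases mul_eq_zero.mp this with h3 | h3
      · exact hK3 (nsq hv hB K3 K1 (by linarith))
      · exact hK3 (nsq hu hA K3 K2 (by linarith))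
    subst hK3
    have h12 : K1 * K2 = 0 := by linarith
    have h012 : K0 ^ 2 = K1 ^ 2 * A + K2 ^ 2 * B := by linarith
    rcases mul_eq_zero.mp h12 with h3 | h3
    · subst h3
      have h4 : K2 = 0 := nsq hv hB K2 K0 (by linarith)
      subst h4
      have h5 : K0 = 0 := by
        have : K0 ^ 2 = 0 := by linarith
        exact pow_eq_zero_iff (two_ne_zero) |>.mp this
      subst h5
      simp
    · subst h3
      have h4 : K1 = 0 := nsq hu hA K1 K0 (by linarith)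
      subst h4
      have h5 : K0 = 0 := by
        have : K0 ^ 2 = 0 := by linarith
        exact pow_eq_zero_iff (two_ne_zero) |>.mp this
      subst h5
      simp
  · rw [Irrational, not_not] at hw
    obtain ⟨w, hw⟩ := hw
    have hv2 : v = (w / A : ℚ) * u := by
      have hA' : (A : ℝ) ≠ 0 := by exact_mod_cast hA0
      push_cast
      rw [hw, div_mul_eq_mul_div, eq_div_iff hA', ← hA]
      ring
    have h3 : ((K0 + K3 * w : ℚ) : ℝ) + ((K1 + K2 * (w / A) : ℚ) : ℝ) * u = 0 := by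
      have e : (K2 : ℝ) * v = K2 * ((w / A : ℚ) : ℝ) * u := by
        rw [mul_assoc, ← hv2]
      push_cast at e ⊢
      rw [← hw] at h
      linarith
    obtain ⟨e1, e2⟩ := irr_zero hu h3
    have e3 : (K0 : ℝ) + K3 * (u * v) = 0 := by
      rw [← hw]
      exact_mod_cast e1
    linarith

/-! ### A rational point -/

lemma rat_open (U : Set (ℝ × ℝ)) (hU : IsOpen U) (hne : U.Nonempty) :
    ∃ p q : ℚ, ((p : ℝ), (q : ℝ)) ∈ U := by
  have hd : DenseRange (fun x : ℚ × ℚ => ((x.1 : ℝ), (x.2 : ℝ))) :=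
    (Rat.denseRange_cast (𝕜 := ℝ)).prodMap (Rat.denseRange_cast (𝕜 := ℝ))
  obtain ⟨x, hx⟩ := hd.exists_mem_open hU hne
  exact ⟨x.1, x.2, hx⟩

/-- a rational point, if the last inequality can be strict -/
lemma rat_strict (m1 m2 c A B : ℝ) (hA : 0 < A) (hB : 0 < B) (p q : ℝ) (h1 : (p - m1) ^ 2 ≤ A)
    (h2 : (q - m2) ^ 2 ≤ B) (h3 : 0 < tri p c q) :
    ∃ p' q' : ℚ, ((p' : ℝ) - m1) ^ 2 ≤ A ∧ ((q' : ℝ) - m2) ^ 2 ≤ B ∧ 0 ≤ tri p' c q' := by
  have hc : Continuous fun t : ℝ => tri (p + t * (m1 - p)) c (q + t * (m2 - q)) := by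
    unfold tri
    fun_prop
  have hev : ∀ᶠ t : ℝ in 𝓝 0, 0 < tri (p + t * (m1 - p)) c (q + t * (m2 - q)) :=
    (isOpen_lt continuous_const hc).mem_nhds (by
      show 0 < tri (p + 0 * (m1 - p)) c (q + 0 * (m2 - q))
      simpa using h3)
  obtain ⟨t, ht, ht0, ht1⟩ := ((hev.filter_mono nhdsWithin_le_nhds).and
    (Ioo_mem_nhdsGT (zero_lt_one' ℝ))).exists
  have shrink : ∀ {x m C : ℝ}, 0 < C → (x - m) ^ 2 ≤ C → (x + t * (m - x) - m) ^ 2 < C := by
    intro x m C hC hx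
    have e : (x + t * (m - x) - m) ^ 2 = (1 - t) ^ 2 * (x - m) ^ 2 := by ring
    have h4 : (1 - t) ^ 2 < 1 := by nlinarith
    rw [e]
    calc (1 - t) ^ 2 * (x - m) ^ 2 ≤ (1 - t) ^ 2 * C := by
          apply mul_le_mul_of_nonneg_left hx (sq_nonneg _)
      _ < 1 * C := mul_lt_mul_of_pos_right h4 hC
      _ = C := one_mul _
  let U : Set (ℝ × ℝ) := {x | (x.1 - m1) ^ 2 < A} ∩ ({x | (x.2 - m2) ^ 2 < B} ∩
    {x | 0 < tri x.1 c x.2})
  have hU : IsOpen U := by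
    apply IsOpen.inter
    · exact isOpen_lt (by fun_prop) continuous_const
    · apply IsOpen.inter
      · exact isOpen_lt (by fun_prop) continuous_const
      · apply isOpen_lt continuous_const
        unfold tri
        fun_prop
  obtain ⟨p', q', h5, h6, h7⟩ := rat_open U hU
    ⟨(p + t * (m1 - p), q + t * (m2 - q)), shrink hA h1, shrink hB h2, ht⟩
  exact ⟨p', q', le_of_lt h5, le_of_lt h6, le_of_lt h7⟩

lemma tri_eq (p c q : ℝ) : tri p c q = (1 - c ^ 2) * (1 - q ^ 2) - (p - c * q) ^ 2 := by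
  unfold tri
  ring

lemma tri_comm (p c q : ℝ) : tri p c q = tri q c p := by
  unfold tri
  ring

/-- moving `p` towards `c * q` -/
lemma rat_move (m1 m2 c A B : ℝ) (hA : 0 < A) (hB : 0 < B) (p q : ℝ) (h1 : (p - m1) ^ 2 < A)
    (h2 : (q - m2) ^ 2 ≤ B) (h3 : tri p c q = 0) (hc : c ^ 2 < 1) (hq : q ^ 2 < 1) :
    ∃ p' q' : ℚ, ((p' : ℝ) - m1) ^ 2 ≤ A ∧ ((q' : ℝ) - m2) ^ 2 ≤ B ∧ 0 ≤ tri p' c q' := by
  have hev : ∀ᶠ t : ℝ in 𝓝 0, (p + t * (c * q - p) - m1) ^ 2 < A :=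
    (isOpen_lt (f := fun t : ℝ => (p + t * (c * q - p) - m1) ^ 2) (by fun_prop)
      continuous_const).mem_nhds (by
      show (p + 0 * (c * q - p) - m1) ^ 2 < A
      simpa using h1)
  obtain ⟨t, ht, ht0, ht1⟩ := ((hev.filter_mono nhdsWithin_le_nhds).and
    (Ioo_mem_nhdsGT (zero_lt_one' ℝ))).exists
  apply rat_strict m1 m2 c A B hA hB _ q ht.le h2
  rw [tri_eq] at h3 ⊢
  have e : (p + t * (c * q - p) - c * q) ^ 2 = (1 - t) ^ 2 * (p - c * q) ^ 2 := by ring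
  have h4 : (1 - t) ^ 2 < 1 := by nlinarith
  have h5 : 0 < (1 - c ^ 2) * (1 - q ^ 2) := mul_pos (by linarith) (by linarith)
  have h6 : (p - c * q) ^ 2 = (1 - c ^ 2) * (1 - q ^ 2) := by linarith
  rw [e, h6]
  nlinarith

/-- the main step: rational entries for the two chords -/
lemma rat_pq (a b c d e : ℚ) (ha : a ^ 2 ≤ 1) (hb : b ^ 2 ≤ 1) (hc : c ^ 2 ≤ 1) (hd : d ^ 2 ≤ 1)
    (he : e ^ 2 ≤ 1) (p q : ℝ) (h1 : (p - (a * b : ℚ)) ^ 2 ≤ ((1 - a ^ 2) * (1 - b ^ 2) : ℚ))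
    (h2 : (q - (d * e : ℚ)) ^ 2 ≤ ((1 - d ^ 2) * (1 - e ^ 2) : ℚ)) (h3 : 0 ≤ tri p c q) :
    ∃ p' q' : ℚ, ((p' : ℝ) - (a * b : ℚ)) ^ 2 ≤ ((1 - a ^ 2) * (1 - b ^ 2) : ℚ) ∧
      ((q' : ℝ) - (d * e : ℚ)) ^ 2 ≤ ((1 - d ^ 2) * (1 - e ^ 2) : ℚ) ∧ 0 ≤ tri p' c q' := by
  have hA0 : 0 ≤ (1 - a ^ 2) * (1 - b ^ 2) := mul_nonneg (by linarith) (by linarith)
  have hB0 : 0 ≤ (1 - d ^ 2) * (1 - e ^ 2) := mul_nonneg (by linarith) (by linarith)
  generalize (1 - a ^ 2) * (1 - b ^ 2) = A at *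
  generalize (1 - d ^ 2) * (1 - e ^ 2) = B at *
  generalize a * b = m1 at *
  generalize d * e = m2 at *
  rcases hA0.eq_or_lt with rfl | hA
  · -- `p` is forced
    have hp : p = m1 := by
      have : (p - m1) ^ 2 = 0 := le_antisymm (by simpa using h1) (sq_nonneg _)
      have := pow_eq_zero_iff (two_ne_zero) |>.mp this
      linarith
    rw [hp, tri_comm, tri_eq] at h3
    obtain ⟨r, hr1, hr2⟩ := interval_rat m2 (c * m1) B ((1 - c ^ 2) * (1 - m1 ^ 2)) q h2 (by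
      push_cast
      linarith)
    refine ⟨m1, r, by simp, hr1, ?_⟩
    rw [tri_comm, tri_eq]
    push_cast at hr2
    linarith
  rcases hB0.eq_or_lt with rfl | hB
  · have hq : q = m2 := by
      have : (q - m2) ^ 2 = 0 := le_antisymm (by simpa using h2) (sq_nonneg _)
      have := pow_eq_zero_iff (two_ne_zero) |>.mp this
      linarith
    rw [hq, tri_eq] at h3
    obtain ⟨r, hr1, hr2⟩ := interval_rat m1 (c * m2) A ((1 - c ^ 2) * (1 - m2 ^ 2)) p h1 (by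
      push_cast
      linarith)
    refine ⟨r, m2, hr1, by simp, ?_⟩
    rw [tri_eq]
    push_cast at hr2
    linarith
  rcases hc.eq_or_lt with hc1 | hc1
  · -- `c = ± 1`
    have hcR : (c : ℝ) ^ 2 = 1 := by exact_mod_cast hc1
    have hpq : p = c * q := by
      rw [tri_eq, hcR] at h3
      have : (p - c * q) ^ 2 = 0 := le_antisymm (by linarith) (sq_nonneg _)
      have := pow_eq_zero_iff (two_ne_zero) |>.mp this
      linarith
    have key : ∀ x : ℝ, (c * x - m1) ^ 2 = (x - c * m1) ^ 2 := by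
      intro x
      have : (c * x - m1) ^ 2 - (x - c * m1) ^ 2 = (c ^ 2 - 1) * (x ^ 2 - m1 ^ 2) := by ring
      rw [hcR] at this
      linarith
    rw [hpq, key] at h1
    obtain ⟨r, hr1, hr2⟩ := interval_rat m2 (c * m1) B A q h2 (by
      push_cast
      exact h1)
    refine ⟨c * r, r, ?_, hr1, ?_⟩
    · push_cast at hr2 ⊢
      rw [key]
      exact hr2
    · rw [tri_eq, hcR]
      push_cast
      simp
  have hc1R : (c : ℝ) ^ 2 < 1 := by exact_mod_cast hc1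
  have hAR : (0 : ℝ) < A := by exact_mod_cast hA
  have hBR : (0 : ℝ) < B := by exact_mod_cast hB
  rcases h3.eq_or_lt with h3 | h3
  swap
  · exact rat_strict m1 m2 c A B hAR hBR p q h1 h2 h3
  have hq1 : q ^ 2 ≤ 1 := by
    rw [tri_eq] at h3
    by_contra hlt
    push Not at hlt
    nlinarith [sq_nonneg (p - c * q), mul_pos (sub_pos.mpr hc1R) (sub_pos.mpr hlt)]
  have hp1 : p ^ 2 ≤ 1 := by
    rw [tri_comm, tri_eq] at h3
    by_contra hlt
    push Not at hlt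
    nlinarith [sq_nonneg (q - c * p), mul_pos (sub_pos.mpr hc1R) (sub_pos.mpr hlt)]
  have rat1 : ∀ x : ℝ, x ^ 2 = 1 → ∃ y : ℚ, (y : ℝ) = x := by
    intro x hx
    have h4 : (x - 1) * (x + 1) = 0 := by linear_combination hx
    rcases mul_eq_zero.mp h4 with h4 | h4
    · exact ⟨1, by push_cast; linarith⟩
    · exact ⟨-1, by push_cast; linarith⟩
  rcases hq1.eq_or_lt with hq1 | hq1
  · obtain ⟨q', rfl⟩ := rat1 q hq1
    have hpq : p = (c * q' : ℚ) := by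
      rw [tri_eq, hq1] at h3
      have : (p - c * q') ^ 2 = 0 := by linarith
      have := pow_eq_zero_iff (two_ne_zero) |>.mp this
      push_cast
      linarith
    subst hpq
    exact ⟨_, _, h1, h2, h3.le⟩
  rcases hp1.eq_or_lt with hp1 | hp1
  · obtain ⟨p', rfl⟩ := rat1 p hp1
    have hpq : q = (c * p' : ℚ) := by
      rw [tri_comm, tri_eq, hp1] at h3
      have : (q - c * p') ^ 2 = 0 := by linarith
      have := pow_eq_zero_iff (two_ne_zero) |>.mp this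
      push_cast
      linarith
    subst hpq
    exact ⟨_, _, h1, h2, h3.le⟩
  rcases h1.lt_or_eq with h1 | h1
  · exact rat_move m1 m2 c A B hAR hBR p q h1 h2 h3.symm hc1R hq1
  rcases h2.lt_or_eq with h2 | h2
  · obtain ⟨q', p', r1, r2, r3⟩ := rat_move m2 m1 c B A hBR hAR q p h2 h1.le
      (by rw [tri_comm]; exact h3.symm) hc1R hp1
    exact ⟨p', q', r2, r1, by rw [tri_comm]; exact r3⟩
  -- a corner of the rectangle on the boundary of the elliptope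
  set u : ℝ := p - m1 with hu
  set v : ℝ := q - m2 with hv
  have hpu : p = m1 + u := by rw [hu]; ring
  have hqv : q = m2 + v := by rw [hv]; ring
  have hsmall : (0 : ℝ) ≤ u ^ 2 + v ^ 2 - 2 * c * u * v := by
    have h4 : u ^ 2 + v ^ 2 - 2 * c * u * v = (u - c * v) ^ 2 + (1 - c ^ 2) * v ^ 2 := by ring
    rw [h4]
    have := mul_nonneg (sub_nonneg.mpr hc1R.le) (sq_nonneg v)
    positivity
  rw [hpu, hqv] at h3
  by_cases hui : Irrational u
  · by_cases hvi : Irrational v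
    · have e : ((1 + 2 * m1 * c * m2 - m1 ^ 2 - c ^ 2 - m2 ^ 2 - A - B : ℚ) : ℝ) +
          (2 * (c * m2 - m1) : ℚ) * u + (2 * (c * m1 - m2) : ℚ) * v +
          (2 * c : ℚ) * (u * v) = 0 := by
        push_cast
        rw [← h1, ← h2]
        unfold tri at h3
        linarith
      have e2 := irr_pair hui hvi h1 h2 e
      push_cast at e e2
      refine ⟨m1, m2, by simpa using hA0, by simpa using hB0, ?_⟩
      unfold tri
      rw [← h1, ← h2] at e e2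
      linarith
    · rw [Irrational, not_not] at hvi
      obtain ⟨v', hv'⟩ := hvi
      have e : ((1 + 2 * m1 * c * (m2 + v') - m1 ^ 2 - c ^ 2 - (m2 + v') ^ 2 - A : ℚ) : ℝ) +
          (2 * (c * (m2 + v') - m1) : ℚ) * u = 0 := by
        push_cast
        rw [← h1, hv']
        unfold tri at h3
        linarith
      obtain ⟨e1, e2⟩ := irr_zero hui e
      refine ⟨m1, m2 + v', by simpa using hA0, ?_, ?_⟩
      · push_cast
        rw [hv', ← h2]
        ring_nf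
        exact le_refl _
      · unfold tri
        have e1' : ((1 + 2 * m1 * c * (m2 + v') - m1 ^ 2 - c ^ 2 - (m2 + v') ^ 2 - A : ℚ) : ℝ) =
            0 := by rw [e1]; simp
        push_cast at e1' ⊢
        linarith
  · rw [Irrational, not_not] at hui
    obtain ⟨u', hu'⟩ := hui
    by_cases hvi : Irrational v
    · have e : ((1 + 2 * (m1 + u') * c * m2 - (m1 + u') ^ 2 - c ^ 2 - m2 ^ 2 - B : ℚ) : ℝ) +
          (2 * (c * (m1 + u') - m2) : ℚ) * v = 0 := by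
        push_cast
        rw [← h2, hu']
        unfold tri at h3
        linarith
      obtain ⟨e1, e2⟩ := irr_zero hvi e
      refine ⟨m1 + u', m2, ?_, by simpa using hB0, ?_⟩
      · push_cast
        rw [hu', ← h1]
        ring_nf
        exact le_refl _
      · unfold tri
        have e1' : ((1 + 2 * (m1 + u') * c * m2 - (m1 + u') ^ 2 - c ^ 2 - m2 ^ 2 - B : ℚ) : ℝ) =
            0 := by rw [e1]; simp
        push_cast at e1' ⊢
        linarith
    · rw [Irrational, not_not] at hvi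
      obtain ⟨v', hv'⟩ := hvi
      refine ⟨m1 + u', m2 + v', ?_, ?_, ?_⟩
      · push_cast
        rw [hu', ← h1]
        ring_nf
        exact le_refl _
      · push_cast
        rw [hv', ← h2]
        ring_nf
        exact le_refl _
      · push_cast
        rw [hu', hv']
        exact h3.le

/-! ### Gluing -/

lemma glue_coeff (u v w : ℚ) (h : (v - u * w) ^ 2 ≤ (1 - u ^ 2) * (1 - w ^ 2)) (hu : u ^ 2 ≤ 1)
    (hv : v ^ 2 ≤ 1) :
    ∃ α β : ℚ, w = α + u * β ∧ v = u * α + β ∧ α * w + β * v ≤ 1 := by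
  rcases hu.eq_or_lt with hu | hu
  · have hvw : v = u * w := by
      rw [hu] at h
      have : (v - u * w) ^ 2 = 0 := le_antisymm (by linarith) (sq_nonneg _)
      have := pow_eq_zero_iff (two_ne_zero) |>.mp this
      linarith
    refine ⟨w, 0, by ring, by rw [hvw]; ring, ?_⟩
    have : v ^ 2 = w ^ 2 := by rw [hvw, mul_pow, hu, one_mul]
    rw [← this] at *
    nlinarith
  · have hne : (1 - u ^ 2) ≠ 0 := by linarith
    refine ⟨(w - u * v) / (1 - u ^ 2), (v - u * w) / (1 - u ^ 2), ?_, ?_, ?_⟩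
    · field_simp
      ring
    · field_simp
      ring
    · rw [div_mul_eq_mul_div, div_mul_eq_mul_div, ← add_div, div_le_one (by linarith)]
      nlinarith

lemma sq_le_of {u v w : ℚ} (hu : u ^ 2 ≤ 1) (hv : v ^ 2 ≤ 1)
    (h : (w - u * v) ^ 2 ≤ (1 - u ^ 2) * (1 - v ^ 2)) : w ^ 2 ≤ 1 := by
  by_contra hlt
  push Not at hlt
  have e : (1 - u ^ 2) * (1 - v ^ 2) - (w - u * v) ^ 2 =
      (1 - u ^ 2) * (1 - w ^ 2) - (v - u * w) ^ 2 := by ring
  rcases hu.eq_or_lt with hu | hu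
  · rw [hu] at e
    have h1 : (v - u * w) ^ 2 = 0 := le_antisymm (by nlinarith) (sq_nonneg _)
    have h2 := pow_eq_zero_iff (two_ne_zero) |>.mp h1
    have h3 : v ^ 2 = w ^ 2 := by
      have : v = u * w := by linarith
      rw [this, mul_pow, hu, one_mul]
    linarith
  · nlinarith [sq_nonneg (v - u * w), mul_pos (sub_pos.mpr hu) (sub_pos.mpr hlt)]

/-- three tests for a psd `3 × 3` matrix -/
lemma three_tests (u v w : ℝ)
    (h : ∀ x y z : ℝ, 0 ≤ x ^ 2 + y ^ 2 + z ^ 2 + 2 * u * x * y + 2 * v * y * z + 2 * w * x * z) :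
    u ^ 2 ≤ 1 ∧ v ^ 2 ≤ 1 ∧ w ^ 2 ≤ 1 ∧ 0 ≤ tri u v w := by
  have h1 : u ^ 2 ≤ 1 := by
    have := h (-u) 1 0
    nlinarith
  have h2 : v ^ 2 ≤ 1 := by
    have := h 0 (-v) 1
    nlinarith
  have h3 : w ^ 2 ≤ 1 := by
    have := h (-w) 0 1
    nlinarith
  refine ⟨h1, h2, h3, ?_⟩
  rcases h1.eq_or_lt with hu | hu
  · have h4 := h (-u * -1) (-1) (v - u * w)
    have h5 : (v - u * w) ^ 2 = 0 := by
      apply le_antisymm _ (sq_nonneg _)
      have : u ^ 2 * (1 : ℝ) = 1 := by rw [hu]; ring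
      nlinarith
    have e : tri u v w = (1 - u ^ 2) * (1 - w ^ 2) - (v - u * w) ^ 2 := by
      unfold tri
      ring
    rw [e, h5, hu]
    simp
  · have h4 := h (-(w - u * v)) (-(v - u * w)) (1 - u ^ 2)
    have e : (-(w - u * v)) ^ 2 + (-(v - u * w)) ^ 2 + (1 - u ^ 2) ^ 2 +
        2 * u * (-(w - u * v)) * (-(v - u * w)) + 2 * v * (-(v - u * w)) * (1 - u ^ 2) +
        2 * w * (-(w - u * v)) * (1 - u ^ 2) = (1 - u ^ 2) * tri u v w := by
      unfold tri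
      ring
    rw [e] at h4
    exact nonneg_of_mul_nonneg_right h4 (by linarith)

/-- the completed matrix is psd -/
lemma glued_psd (q α₁ β₁ α₂ β₂ α₄ β₄ a b c d e p x y w : ℝ) (hq : q ^ 2 ≤ 1)
    (he : e = α₄ + q * β₄) (hd : d = q * α₄ + β₄) (h4 : α₄ * e + β₄ * d ≤ 1)
    (hp : p = α₂ + q * β₂) (hc : c = q * α₂ + β₂) (h2 : α₂ * p + β₂ * c ≤ 1)
    (ha : a = α₁ + p * β₁) (hb : b = p * α₁ + β₁) (h1 : α₁ * a + β₁ * b ≤ 1)
    (hx : x = α₂ * e + β₂ * d) (hy : y = α₁ * q + β₁ * c) (hw : w = α₁ * e + β₁ * x)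
    (z₀ z₁ z₂ z₃ z₄ : ℝ) :
    0 ≤ z₀ ^ 2 + z₁ ^ 2 + z₂ ^ 2 + z₃ ^ 2 + z₄ ^ 2 + 2 * (a * z₀ * z₁ + b * z₁ * z₂ +
      c * z₂ * z₃ + d * z₃ * z₄ + e * z₄ * z₀ + p * z₀ * z₂ + q * z₀ * z₃ + y * z₁ * z₃ +
      w * z₁ * z₄ + x * z₂ * z₄) := by
  have key : z₀ ^ 2 + z₁ ^ 2 + z₂ ^ 2 + z₃ ^ 2 + z₄ ^ 2 + 2 * (a * z₀ * z₁ + b * z₁ * z₂ +
      c * z₂ * z₃ + d * z₃ * z₄ + e * z₄ * z₀ + p * z₀ * z₂ + q * z₀ * z₃ + y * z₁ * z₃ +
      w * z₁ * z₄ + x * z₂ * z₄) =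
      (1 - (α₁ * a + β₁ * b)) * z₁ ^ 2 + (1 - (α₂ * p + β₂ * c)) * (z₂ + β₁ * z₁) ^ 2 +
      (1 - (α₄ * e + β₄ * d)) * z₄ ^ 2 + (1 - q ^ 2) * (z₃ + β₂ * (z₂ + β₁ * z₁) + β₄ * z₄) ^ 2 +
      (z₀ + α₁ * z₁ + α₂ * (z₂ + β₁ * z₁) + α₄ * z₄ +
        q * (z₃ + β₂ * (z₂ + β₁ * z₁) + β₄ * z₄)) ^ 2 := by
    rw [hw, hy, hx, ha, hb, hp, hc, he, hd]
    ring
  rw [key]
  have e1 := mul_nonneg (sub_nonneg.mpr h1) (sq_nonneg z₁)
  have e2 := mul_nonneg (sub_nonneg.mpr h2) (sq_nonneg (z₂ + β₁ * z₁))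
  have e3 := mul_nonneg (sub_nonneg.mpr h4) (sq_nonneg z₄)
  have e4 := mul_nonneg (sub_nonneg.mpr hq) (sq_nonneg (z₃ + β₂ * (z₂ + β₁ * z₁) + β₄ * z₄))
  positivity

lemma quad_eq (X : Matrix (Fin 5) (Fin 5) ℝ) (hs : ∀ i j, X i j = X j i) (hd : ∀ i, X i i = 1)
    (z : Fin 5 → ℝ) : star z ⬝ᵥ (X.mulVec z) =
      z 0 ^ 2 + z 1 ^ 2 + z 2 ^ 2 + z 3 ^ 2 + z 4 ^ 2 + 2 * (X 0 1 * z 0 * z 1 + X 1 2 * z 1 * z 2 +
      X 2 3 * z 2 * z 3 + X 3 4 * z 3 * z 4 + X 4 0 * z 4 * z 0 + X 0 2 * z 0 * z 2 +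
      X 0 3 * z 0 * z 3 + X 1 3 * z 1 * z 3 + X 1 4 * z 1 * z 4 + X 2 4 * z 2 * z 4) := by
  simp only [dotProduct, Matrix.mulVec, Fin.sum_univ_five, Pi.star_apply, star_trivial, hd]
  rw [hs 1 0, hs 2 0, hs 2 1, hs 3 0, hs 3 1, hs 3 2, hs 4 1, hs 4 2, hs 4 3, hs 0 4]
  ring

theorem result (x : Fin 5 → ℚ) (h : ∃ X, IsCompletion (fun i => (x i : ℝ)) X) :
    ∃ X : Matrix (Fin 5) (Fin 5) ℚ,
      IsCompletion (fun i => (x i : ℝ)) (X.map fun t : ℚ => (t : ℝ)) := by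
  obtain ⟨X, hpsd, hdiag, hx⟩ := h
  have hs : ∀ i j, X i j = X j i := fun i j => by
    have := hpsd.isHermitian.apply i j
    simpa using this.symm
  have h0 : X 0 1 = x 0 := hx 0
  have h1 : X 1 2 = x 1 := hx 1
  have h2 : X 2 3 = x 2 := hx 2
  have h3 : X 3 4 = x 3 := hx 3
  have h4 : X 4 0 = x 4 := hx 4
  have hq : ∀ z : Fin 5 → ℝ, 0 ≤ z 0 ^ 2 + z 1 ^ 2 + z 2 ^ 2 + z 3 ^ 2 + z 4 ^ 2 +
      2 * (X 0 1 * z 0 * z 1 + X 1 2 * z 1 * z 2 +
      X 2 3 * z 2 * z 3 + X 3 4 * z 3 * z 4 + X 4 0 * z 4 * z 0 + X 0 2 * z 0 * z 2 +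
      X 0 3 * z 0 * z 3 + X 1 3 * z 1 * z 3 + X 1 4 * z 1 * z 4 + X 2 4 * z 2 * z 4) := by
    intro z
    rw [← quad_eq X hs hdiag z]
    exact hpsd.dotProduct_mulVec_nonneg z
  rw [h0, h1, h2, h3, h4] at hq
  set p : ℝ := X 0 2 with hp
  set q : ℝ := X 0 3 with hq'
  obtain ⟨u1, v1, w1, t1⟩ := three_tests (x 0) (x 1) p (fun u v w => by
    have := hq ![u, v, w, 0, 0]
    simp at this
    linarith)
  obtain ⟨u2, v2, w2, t2⟩ := three_tests p (x 2) q (fun u v w => by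
    have := hq ![u, 0, v, w, 0]
    simp at this
    linarith)
  obtain ⟨u3, v3, w3, t3⟩ := three_tests (x 4) (x 3) q (fun u v w => by
    have := hq ![u, 0, 0, w, v]
    simp at this
    linarith)
  have ha : x 0 ^ 2 ≤ 1 := by exact_mod_cast u1
  have hb : x 1 ^ 2 ≤ 1 := by exact_mod_cast v1
  have hc : x 2 ^ 2 ≤ 1 := by exact_mod_cast v2
  have hd : x 3 ^ 2 ≤ 1 := by exact_mod_cast v3
  have he : x 4 ^ 2 ≤ 1 := by exact_mod_cast u3
  obtain ⟨p', q', r1, r2, r3⟩ := rat_pq (x 0) (x 1) (x 2) (x 3) (x 4) ha hb hc hd he p q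
    (by unfold tri at t1; push_cast; linarith) (by unfold tri at t3; push_cast; linarith) t2
  have s1 : (p' - x 0 * x 1) ^ 2 ≤ (1 - x 0 ^ 2) * (1 - x 1 ^ 2) := by exact_mod_cast r1
  have s2 : (q' - x 3 * x 4) ^ 2 ≤ (1 - x 3 ^ 2) * (1 - x 4 ^ 2) := by exact_mod_cast r2
  have s3 : 0 ≤ 1 + 2 * p' * x 2 * q' - p' ^ 2 - x 2 ^ 2 - q' ^ 2 := by
    unfold tri at r3
    exact_mod_cast r3
  have hp1 : p' ^ 2 ≤ 1 := sq_le_of ha hb s1
  have hq1 : q' ^ 2 ≤ 1 := sq_le_of hd he s2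
  obtain ⟨α₁, β₁, e1, e2, e3⟩ := glue_coeff p' (x 1) (x 0) (by linarith) hp1 hb
  obtain ⟨α₂, β₂, f1, f2, f3⟩ := glue_coeff q' (x 2) p' (by linarith) hq1 hc
  obtain ⟨α₄, β₄, g1, g2, g3⟩ := glue_coeff q' (x 3) (x 4) (by linarith) hq1 hd
  let x24 : ℚ := α₂ * x 4 + β₂ * x 3
  let x13 : ℚ := α₁ * q' + β₁ * x 2
  let x14 : ℚ := α₁ * x 4 + β₁ * x24
  let M : Matrix (Fin 5) (Fin 5) ℚ := !![1, x 0, p', q', x 4; x 0, 1, x 1, x13, x14;
    p', x 1, 1, x 2, x24; q', x13, x 2, 1, x 3; x 4, x14, x24, x 3, 1]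
  have hMs : ∀ i j, M i j = M j i := by
    intro i j
    fin_cases i <;> fin_cases j <;> rfl
  have hMd : ∀ i, M i i = 1 := by
    intro i
    fin_cases i <;> rfl
  refine ⟨M, Matrix.PosSemidef.of_dotProduct_mulVec_nonneg ?_ ?_, ?_, ?_⟩
  · ext i j
    simp only [Matrix.conjTranspose_apply, Matrix.map_apply, star_trivial]
    rw [hMs]
  · intro z
    rw [quad_eq _ (fun i j => by rw [Matrix.map_apply, Matrix.map_apply, hMs])
      (fun i => by rw [Matrix.map_apply, hMd]; simp) z]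
    exact glued_psd q' α₁ β₁ α₂ β₂ α₄ β₄ (x 0) (x 1) (x 2) (x 3) (x 4) p' x24 x13 x14
      (by exact_mod_cast hq1) (by exact_mod_cast g1) (by exact_mod_cast g2)
      (by exact_mod_cast g3) (by exact_mod_cast f1) (by exact_mod_cast f2) (by exact_mod_cast f3)
      (by exact_mod_cast e1) (by exact_mod_cast e2) (by exact_mod_cast e3)
      (by simp only [x24]; push_cast; ring) (by simp only [x13]; push_cast; ring)
      (by simp only [x14]; push_cast; ring) _ _ _ _ _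
  · intro i
    rw [Matrix.map_apply, hMd]
    simp
  · intro i
    rw [Matrix.map_apply]
    fin_cases i <;> rfl

end Pool.Agent.Results.MP_dcc435_co.RationalCompletion
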